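import Pool.Agent.H23.Hjelmslev

set_option autoImplicit false

namespace Pool.Agent.Results.MP_43980c_co.TranslationsNotGroup

open Pool.Agent.H23.Hjelmslev

/-- Negative answer to Q1: there is a (finite) affine Hjelmslev plane with two translations
`σ, τ` (each of which moreover maps every block to a parallel block) whose composite is not a
translation. -/
theorem result : ∃ (P L : Type) (_ : Finite P) (_ : Finite L) (I : P → L → Prop)
    (par : L → L → Prop), IsAffineHjelmslevPlane I par ∧
    ∃ σ τ : Aut I, IsTranslation par σ ∧ IsTranslation par τ ∧
      (∀ B, par B (σ.1.2 B)) ∧ (∀ B, par B (τ.1.2 B)) ∧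
      ¬ IsTranslation par (σ * τ) :=
  main

end Pool.Agent.Results.MP_43980c_co.TranslationsNotGroup
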